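import Pool.Agent.R331.BA.Dig

set_option autoImplicit false

namespace Pool.Agent.Results.MP_39ae23_nt.NoZeroOne

open Pool.Agent.R331.BA MeasureTheory

/-- The zero-one law for `Bad_A` fails for algebraic measures on cosets: there are a (non-singular)
`2 × 1` real matrix `A` and a one-dimensional algebraic measure `μ` on `T^2` with
`0 < μ(Bad_A) < 1`. -/
theorem result : ∃ A : Matrix (Fin 2) (Fin 1) ℝ, ¬ Singular A ∧
    ∃ C : Coset 2 1, MeasurableSet (Bad A) ∧ 0 < C.haar (Bad A) ∧ C.haar (Bad A) < 1 := by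
  obtain ⟨x₂, hx⟩ := exists_x₂ adm_dd
  refine ⟨col α₁ α₂, nonsingular, hor (x₂ : UnitAddCircle), measurableSet_Bad _, ?_, ?_⟩
  · have h := haar_lower (x₂ : UnitAddCircle) (Bad (col α₁ α₂)) (9/16) (11/16) (by norm_num)
      (by norm_num) (fun u hu => dd_bad hx u hu)
    refine lt_of_lt_of_le ?_ h
    rw [ENNReal.ofReal_pos]
    norm_num
  · have h := haar_lower (x₂ : UnitAddCircle) (Bad (col α₁ α₂))ᶜ 0 (1/4) (by norm_num)
      (by norm_num) (fun u hu => dd_not_bad hx u hu)
    have h0 : 0 < (hor (x₂ : UnitAddCircle)).haar (Bad (col α₁ α₂))ᶜ := by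
      refine lt_of_lt_of_le ?_ h
      rw [ENNReal.ofReal_pos]
      norm_num
    have hp := prob_hor (x₂ : UnitAddCircle)
    have h1 := prob_add_prob_compl (μ := (hor (x₂ : UnitAddCircle)).haar)
      (measurableSet_Bad (col α₁ α₂))
    by_contra hcon
    have hcon' : (1 : ENNReal) ≤ (hor (x₂ : UnitAddCircle)).haar (Bad (col α₁ α₂)) := not_lt.mp hcon
    have h2 : (1 : ENNReal) < 1 := by
      calc (1 : ENNReal) < 1 + (hor (x₂ : UnitAddCircle)).haar (Bad (col α₁ α₂))ᶜ :=
            ENNReal.lt_add_right (by norm_num) h0.ne'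
        _ ≤ (hor (x₂ : UnitAddCircle)).haar (Bad (col α₁ α₂)) +
            (hor (x₂ : UnitAddCircle)).haar (Bad (col α₁ α₂))ᶜ := by gcongr
        _ = 1 := h1
    exact lt_irrefl _ h2

end Pool.Agent.Results.MP_39ae23_nt.NoZeroOne
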